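import Mathlib
import Pool.Agent.Q157.SliceBound

/-!
# Minimal slice rank decompositions live in subspaces of bounded dimension

For all `d` and `k` there is a constant `C` such that the one-variable factors of all minimal
length slice rank decompositions of an order-`d` tensor of slice rank `k` are contained in
subspaces of dimension at most `C`.
-/

namespace Pool.Agent.Results.MP_f1e34e_co.Bounded

open Module Pool.Agent.Q157.SliceBound

/-! ## Definitions -/

/-- An order-`d` tensor over `F` of format `n`. -/
abbrev Tensor (F : Type*) {d : ℕ} (n : Fin d → ℕ) : Type _ := ((j : Fin d) → Fin (n j)) → F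

/-- Delete the `j`-th coordinate of a point. -/
def del {d : ℕ} {n : Fin d → ℕ} (j : Fin d) (x : (l : Fin d) → Fin (n l)) :
    (l : {l : Fin d // l ≠ j}) → Fin (n l.1) := fun l => x l.1

/-- `(s, u, v)` is a slice rank decomposition of `T` (of length `∑ j, s j`). -/
def IsDecomp {F : Type*} [Field F] {d : ℕ} {n : Fin d → ℕ} (T : Tensor F n) (s : Fin d → ℕ)
    (u : (j : Fin d) → Fin (s j) → Fin (n j) → F)
    (v : (j : Fin d) → Fin (s j) → ((l : {l : Fin d // l ≠ j}) → Fin (n l.1)) → F) : Prop :=
  ∀ x, T x = ∑ j, ∑ i, u j i (x j) * v j i (del j x)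

/-- The slice rank of `T` is `k`: the least length of a slice rank decomposition. -/
def HasSliceRank {F : Type*} [Field F] {d : ℕ} {n : Fin d → ℕ} (T : Tensor F n) (k : ℕ) : Prop :=
  (∃ s u v, IsDecomp T s u v ∧ ∑ j, s j = k) ∧ ∀ s u v, IsDecomp T s u v → k ≤ ∑ j, s j

/-! ## The multilinear form of a tensor -/

variable {F : Type*} [Field F] {d : ℕ} {n : Fin d → ℕ}

/-- The multilinear form of a tensor. -/
noncomputable def form (T : Tensor F n) : MultilinearMap F (fun j => Fin (n j) → F) F :=
  ∑ x : (j : Fin d) → Fin (n j), T x •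
    (MultilinearMap.mkPiAlgebra F (Fin d) F).compLinearMap (fun j => LinearMap.proj (x j))

theorem form_apply (T : Tensor F n) (w : (j : Fin d) → Fin (n j) → F) :
    form T w = ∑ x, T x * ∏ j, w j (x j) := by
  simp [form]

theorem form_single (T : Tensor F n) (x : (j : Fin d) → Fin (n j)) :
    form T (fun j => Pi.single (x j) 1) = T x := by
  classical
  rw [form_apply, Finset.sum_eq_single x]
  · simp
  · intro y _ hyx
    have : ∃ j, y j ≠ x j := by
      by_contra h
      push Not at h
      exact hyx (funext h)
    obtain ⟨j, hj⟩ := this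
    rw [Finset.prod_eq_zero (Finset.mem_univ j) (Pi.single_eq_of_ne hj _), mul_zero]
  · intro h; exact absurd (Finset.mem_univ _) h

/-- The vectors orthogonal to the one-variable factors. -/
noncomputable def orth {s n : ℕ} (u : Fin s → Fin n → F) : (Fin n → F) →ₗ[F] (Fin s → F) where
  toFun w i := ∑ a, u i a * w a
  map_add' x y := by funext i; simp [mul_add, Finset.sum_add_distrib]
  map_smul' r x := by
    funext i
    simp only [Pi.smul_apply, smul_eq_mul, RingHom.id_apply, Finset.mul_sum]
    exact Finset.sum_congr rfl fun a _ => by ring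

/-- A decomposition gives a tuple of subspaces on which the form vanishes. -/
theorem form_vanish {T : Tensor F n} {s : Fin d → ℕ}
    {u : (j : Fin d) → Fin (s j) → Fin (n j) → F}
    {v : (j : Fin d) → Fin (s j) → ((l : {l : Fin d // l ≠ j}) → Fin (n l.1)) → F}
    (h : IsDecomp T s u v) (f : (j : Fin d) → Fin (n j) → F)
    (hf : ∀ j, f j ∈ LinearMap.ker (orth (u j))) : form T f = 0 := by
  classical
  have hf1 : ∀ j i, ∑ a, u j i a * f j a = 0 := fun j i =>
    congrFun (LinearMap.mem_ker.1 (hf j)) i
  rw [form_apply]
  simp only [h _, Finset.sum_mul]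
  rw [Finset.sum_comm]
  apply Finset.sum_eq_zero
  intro j _
  rw [Finset.sum_comm]
  apply Finset.sum_eq_zero
  intro i _
  rw [← (Equiv.piSplitAt j fun l => Fin (n l)).symm.sum_comp, Fintype.sum_prod_type_right]
  apply Finset.sum_eq_zero
  intro y _
  have h3 : ∀ b : Fin (n j), (u j i ((Equiv.piSplitAt j fun l => Fin (n l)).symm (b, y) j) *
      v j i (del j ((Equiv.piSplitAt j fun l => Fin (n l)).symm (b, y)))) *
      ∏ l, f l ((Equiv.piSplitAt j fun l => Fin (n l)).symm (b, y) l) =
      (u j i b * f j b) * (v j i y * ∏ l : {l : Fin d // l ≠ j}, f l.1 (y l)) := by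
    intro b
    have e1 : (Equiv.piSplitAt j fun l => Fin (n l)).symm (b, y) j = b := by
      simp [Equiv.piSplitAt]
    have e2 : del j ((Equiv.piSplitAt j fun l => Fin (n l)).symm (b, y)) = y := by
      funext l
      simp [del, Equiv.piSplitAt, l.2]
    have e3 : ∏ l, f l ((Equiv.piSplitAt j fun l => Fin (n l)).symm (b, y) l) =
        f j b * ∏ l : {l : Fin d // l ≠ j}, f l.1 (y l) := by
      rw [Fintype.prod_eq_mul_prod_subtype_ne _ j, e1]
      congr 1
      refine Finset.prod_congr rfl fun l _ => ?_
      congr 1
      exact congrFun e2 l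
    rw [e1, e2, e3]
    ring
  simp only [h3, ← Finset.sum_mul, hf1 j i, zero_mul]

/-- A tuple of subspaces on which the form vanishes gives a decomposition. -/
theorem exists_decomp (T : Tensor F n) (U : (j : Fin d) → Submodule F (Fin (n j) → F))
    (hU : ∀ w, (∀ j, w j ∈ U j) → form T w = 0) :
    ∃ u v, IsDecomp T (fun j => finrank F ((Fin (n j) → F) ⧸ U j)) u v := by
  classical
  let s : Fin d → ℕ := fun j => finrank F ((Fin (n j) → F) ⧸ U j)
  let bas : ∀ j, Basis (Fin (s j)) F ((Fin (n j) → F) ⧸ U j) := fun j => finBasis F _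
  -- representatives of the basis vectors
  have hrep : ∀ j i, ∃ w : Fin (n j) → F, (U j).mkQ w = bas j i := fun j i =>
    (U j).mkQ_surjective _
  choose b hb using hrep
  let u : (j : Fin d) → Fin (s j) → Fin (n j) → F := fun j i a =>
    (bas j).repr ((U j).mkQ (Pi.single a 1)) i
  let r : (j : Fin d) → Fin (n j) → (Fin (n j) → F) := fun j a =>
    Pi.single a 1 - ∑ i, u j i a • b j i
  have hr : ∀ j a, r j a ∈ U j := by
    intro j a
    rw [← Submodule.ker_mkQ (U j), LinearMap.mem_ker]
    simp only [r, map_sub, map_sum, map_smul, hb]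
    rw [sub_eq_zero]
    exact ((bas j).sum_repr _).symm
  let mix : ℕ → ((j : Fin d) → Fin (n j)) → (j : Fin d) → (Fin (n j) → F) := fun m x j =>
    if j.val < m then r j (x j) else Pi.single (x j) 1
  let v : (j : Fin d) → Fin (s j) → ((l : {l : Fin d // l ≠ j}) → Fin (n l.1)) → F :=
    fun j i y => form T fun l => if h : l = j then h ▸ b j i else
      if l.val < j.val then r l (y ⟨l, h⟩) else Pi.single (y ⟨l, h⟩) 1
  refine ⟨u, v, fun x => ?_⟩
  have h0 : form T (mix 0 x) = T x := by
    have : mix 0 x = fun j => Pi.single (x j) 1 := by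
      funext j; simp only [mix, Nat.not_lt_zero, if_false]
    rw [this, form_single]
  have hd : form T (mix d x) = 0 := by
    apply hU
    intro j
    simp only [mix, if_pos j.2]
    exact hr j (x j)
  have hstep : ∀ j : Fin d, form T (mix j.val x) - form T (mix (j.val + 1) x) =
      ∑ i, u j i (x j) * v j i (del j x) := by
    intro j
    have e1 : mix j.val x = Function.update (mix j.val x) j (Pi.single (x j) 1) := by
      funext l
      by_cases hl : l = j
      · subst hl
        rw [Function.update_self]
        simp only [mix, lt_irrefl, if_false]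
      · rw [Function.update_of_ne hl]
    have e2 : mix (j.val + 1) x = Function.update (mix j.val x) j (r j (x j)) := by
      funext l
      by_cases hl : l = j
      · subst hl
        rw [Function.update_self]
        simp only [mix, Nat.lt_succ_self, if_true]
      · rw [Function.update_of_ne hl]
        have : l.val ≠ j.val := fun h => hl (Fin.ext h)
        simp only [mix]
        by_cases h1 : l.val < j.val
        · rw [if_pos h1, if_pos (by omega)]
        · rw [if_neg h1, if_neg (by omega)]
    have e3 : form T (mix j.val x) - form T (mix (j.val + 1) x) =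
        (form T).toLinearMap (mix j.val x) j (Pi.single (x j) 1 - r j (x j)) := by
      rw [map_sub]
      change _ = form T (Function.update (mix j.val x) j (Pi.single (x j) 1)) -
        form T (Function.update (mix j.val x) j (r j (x j)))
      rw [← e1, ← e2]
    have e4 : (Pi.single (x j) 1 - r j (x j) : Fin (n j) → F) =
        ∑ i, u j i (x j) • b j i := by simp only [r]; abel
    rw [e3, e4, map_sum]
    refine Finset.sum_congr rfl fun i _ => ?_
    rw [map_smul, smul_eq_mul]
    congr 1
  have htel : ∑ j : Fin d, (form T (mix j.val x) - form T (mix (j.val + 1) x)) =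
      form T (mix 0 x) - form T (mix d x) := by
    rw [← Finset.sum_range_sub' (fun m => form T (mix m x)) d, Finset.sum_range]
  rw [h0, hd, sub_zero] at htel
  rw [← htel]
  exact Finset.sum_congr rfl fun j _ => hstep j

/-- Vectors killed by the annihilator. -/
noncomputable def ann {m : ℕ} (Z : Submodule F (Fin m → F)) :
    Module.Dual F ((Fin m → F) ⧸ Z) →ₗ[F] (Fin m → F) where
  toFun φ a := φ (Z.mkQ (Pi.single a 1))
  map_add' x y := by funext a; simp
  map_smul' c x := by funext a; simp

theorem mem_ann {m : ℕ} (Z : Submodule F (Fin m → F)) (u : Fin m → F)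
    (hu : ∀ z ∈ Z, ∑ a, u a * z a = 0) : u ∈ LinearMap.range (ann Z) := by
  classical
  let L : (Fin m → F) →ₗ[F] F :=
    { toFun := fun w => ∑ a, u a * w a
      map_add' := by intro x y; simp [mul_add, Finset.sum_add_distrib]
      map_smul' := by
        intro c x
        simp only [Pi.smul_apply, smul_eq_mul, RingHom.id_apply, Finset.mul_sum]
        exact Finset.sum_congr rfl fun a _ => by ring }
  have hL : Z ≤ LinearMap.ker L := fun z hz => hu z hz
  refine ⟨Z.liftQ L hL, ?_⟩
  funext a
  change (Z.liftQ L hL) (Z.mkQ (Pi.single a 1)) = u a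
  rw [Submodule.mkQ_apply, Submodule.liftQ_apply]
  change ∑ b, u b * (Pi.single a 1 : Fin m → F) b = u a
  simp [Pi.single_apply]

/-- **Q1 is true**: for all `d ≥ 3` and `k ≥ 1` there is a positive integer `C` such that for every
field, every format and every order-`d` tensor `T` of slice rank `k` there are subspaces `A j` of
dimension at most `C` containing the spans of the one-variable factors of every slice rank
decomposition of `T` of length `k`. -/
theorem result : ∀ d k : ℕ, 3 ≤ d → 1 ≤ k → ∃ C : ℕ, 1 ≤ C ∧
    ∀ (F : Type*) [Field F] (n : Fin d → ℕ), (∀ j, 1 ≤ n j) → ∀ T : Tensor F n,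
      HasSliceRank T k → ∃ A : (j : Fin d) → Submodule F (Fin (n j) → F),
        (∀ j, finrank F (A j) ≤ C) ∧
        ∀ s u v, IsDecomp T s u v → ∑ j, s j = k →
          ∀ j, Submodule.span F (Set.range (u j)) ≤ A j := by
  intro d k _ _
  refine ⟨cb d k d + 1, by omega, ?_⟩
  intro F _ n _ T hT
  obtain ⟨Z, hZ1, hZ2⟩ := exists_common (form T) k (by
    intro U hU
    obtain ⟨u, v, h⟩ := exists_decomp T U hU
    exact hT.2 _ u v h)
  refine ⟨fun j => LinearMap.range (ann (Z j)), fun j => ?_, ?_⟩
  · have h1 := LinearMap.finrank_range_le (ann (Z j))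
    rw [Subspace.dual_finrank_eq] at h1
    exact h1.trans ((hZ1 j).trans (Nat.le_succ _))
  · intro s u v h hs j
    rw [Submodule.span_le]
    rintro _ ⟨i, rfl⟩
    apply mem_ann
    intro z hz
    have h1 := hZ2 (fun j => LinearMap.ker (orth (u j))) (fun w hw => form_vanish h w hw) (by
      rw [← hs]
      refine Finset.sum_le_sum fun j _ => ?_
      have h2 := (LinearMap.quotKerEquivRange (orth (u j))).finrank_eq
      rw [h2]
      exact (Submodule.finrank_le _).trans (by rw [Module.finrank_fin_fun])) j hz
    exact congrFun (LinearMap.mem_ker.1 h1) i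

end Pool.Agent.Results.MP_f1e34e_co.Bounded
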